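import Pool.Agent.Q300.ML.Defs

/-!
# The asymptotic formula for the number of extensions with group `C₂ ≀ (A ≀ S_m)`

`H` is a finite group acting on itself by multiplication, and `G = C₂ ≀ H` acts on `H × {0, 1}`. The
asymptotic formula `N(k, G; B) ~ c B` holds over every number field `k` for `H = A ≀ S_m`, `A` any finite
group and `m ≥ ((3 |A| + 2)!) ^ 3`; and over `k` for the groups `H` of finite towers of steps in
the class `Cls k` (semidirect products with finite abelian kernels, with kernels `A ^ j`, `A` regular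
over `k`, with kernels `(B ≀ S_n) ^ j`, epimorphisms with kernels `∏ B_i ≀ S_{n_i}`, compositions and
quotients) over a finite Galois extension `L / k`, if `H` has a subgroup of index `u`, with trivial
normal core, with `8 u (u + 1) ≤ |H|`. The exponents are those predicted by Malle: `a(G) = 1 / ind(G)`,
`ind(G) = 1`, and `b(k, G) = β_k(G) = 1`.
-/

set_option autoImplicit false

open Pool.Agent.Q300.ML
open Pool.Agent.TH444.TW (Cls)
open Pool.Agent.H391R2 (Wr)

/-- Malle's conjecture holds for `C₂ ≀ (A ≀ S_m)`, `m ≥ ((3 |A| + 2)!) ^ 3`, over every number field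
(first part), and for `C₂ ≀ H` over the number field `k` whenever `H` is the top of a finite tower of
steps in the class `Cls k` over a finite Galois extension `L/k` and `H` has a subgroup of index
`u`, with trivial normal core, `8 u (u + 1) ≤ |H|` (second part), in the form
`N(k, G; B) ~ c B ^ (1 / ind(G)) (log B) ^ (β_k(G) - 1)`, `c > 0`. In all cases `ind(G) = 1` and
`β_k(G) = 1` (third part), so `N(k, G; B) ~ c B`. -/
theorem Pool.Agent.Results.MP_a3214d_nt.WreathTowers.result :
    (∀ (A : Type) [Group A] [Finite A] (m : ℕ), ((3 * Nat.card A + 2).factorial) ^ 3 ≤ m →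
      (∃ (d : ℕ) (G : Subgroup (Equiv.Perm (Fin d))), d = 2 * Nat.card (Wr A m) ∧
        IsC2Wreath (Wr A m) G ∧ ∀ i j : Fin d, ∃ g ∈ G, g i = j) ∧
      ∀ (d : ℕ) (G : Subgroup (Equiv.Perm (Fin d))), IsC2Wreath (Wr A m) G →
        ∀ (k : Type) [Field k] [NumberField k], MalleOver k d G) ∧
    (∀ (k L H : Type) [Field k] [NumberField k] [Field L] [Algebra k L] [FiniteDimensional k L]
      [IsGalois k L] [Group H] [Finite H] (p : H →* (L ≃ₐ[k] L)), Cls k p →
      ∀ U : Subgroup H, U.normalCore = ⊥ → 8 * U.index * (U.index + 1) ≤ Nat.card H →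
      ∀ (d : ℕ) (G : Subgroup (Equiv.Perm (Fin d))), IsC2Wreath H G → MalleOver k d G) ∧
    (∀ (H : Type) [Group H] [Finite H] [Nontrivial H] (d : ℕ) (G : Subgroup (Equiv.Perm (Fin d))),
      IsC2Wreath H G → indG G = 1 ∧ ∀ (k : Type) [Field k], beta k G = 1) := by
  refine ⟨?_, ?_, ?_⟩
  · intro A _ _ m hm
    refine ⟨exists_group (Wr A m), fun d G hG K _ _ => ?_⟩
    obtain ⟨h2, ⟨U, hU, hc⟩, hne⟩ := Pool.Agent.TH444.ML.wr_data K A m hm
    exact malleOver_of K (Wr A m) h2 U hU hc hne d G hG
  · intro K L H _ _ _ _ _ _ _ _ p hp U hU hc d G hG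
    have h1 : 1 ≤ U.index := Nat.one_le_iff_ne_zero.2 Subgroup.index_ne_zero_of_finite
    have h2 : 2 ≤ Nat.card H := by nlinarith
    exact malleOver_of K H h2 U hU hc
      (Pool.Agent.TH444.ML.gal_nonempty K (AlgebraicClosure K) L H p hp) d G hG
  · intro H _ _ _ d G hG
    exact ⟨indG_eq hG, fun K _ => beta_eq K Finite.one_lt_card hG⟩
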